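import Pool.Agent.Lib_helper24.K4D2.Induct

/-!
Project K4M, honest `Z_l` for all `l = n + 2`: the expression `Z t n b c`, its two symmetries and
the averaging identity which comes from the distribution relation of `t`.
-/

set_option autoImplicit false
set_option linter.unusedSectionVars false

namespace Pool.Agent.K4Z

open Finset Pool.Agent.K4ParP Pool.Agent.K4D2

variable {A B : Type*} [AddCommGroup A] [AddCommGroup B] [Module ℚ B]

open Classical in
/-- the finite set of the solutions of `n z = y` (empty if there are infinitely many) -/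
noncomputable def sol (n : ℕ) (y : A) : Finset A :=
  if h : {z : A | n • z = y}.Finite then h.toFinset else ∅

/-- the four sums of the relation `Z_l`, `l = n + 2`, `k = n + 1` -/
noncomputable def Z (t : A → A → B) (n : ℕ) (b c : A) : B :=
  ∑ a ∈ sol (n + 2) (0 : A), t (a - b) (b - c) + ∑ w ∈ sol (n + 1) (-b), t (b - w) (w - c) +
    ∑ w ∈ sol (n + 1) (-b), ∑ a ∈ sol (n + 2) (0 : A), t (w - a) (a - c) +
    t ((n + 2) • c) (b - c)

variable [∀ n : ℕ, Fintype (tor A (n + 1))]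

lemma fin_sol (n : ℕ) (y : A) : {z : A | (n + 1) • z = y}.Finite := by
  rcases Set.eq_empty_or_nonempty {z : A | (n + 1) • z = y} with h | ⟨w, hw⟩
  · rw [h]; exact Set.finite_empty
  · refine (Set.finite_range (fun i : tor A (n + 1) => w + (i : A))).subset ?_
    intro z hz
    refine ⟨⟨z - w, ?_⟩, ?_⟩
    · rw [mem_tor, smul_sub]
      exact sub_eq_zero.mpr (hz.trans hw.symm)
    · show w + (z - w) = z
      abel

lemma mem_sol {n : ℕ} {y z : A} : z ∈ sol (n + 1) y ↔ (n + 1) • z = y := by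
  unfold sol
  rw [dif_pos (fin_sol n y), Set.Finite.mem_toFinset]
  exact Iff.rfl

lemma mem_sol2 {n : ℕ} {y z : A} : z ∈ sol (n + 2) y ↔ (n + 2) • z = y :=
  mem_sol (n := n + 1)

/-- sums over a fibre as sums over the torsion subgroup -/
lemma sum_sol {V : Type*} [AddCommMonoid V] {n : ℕ} {y w : A} (hw : (n + 1) • w = y)
    (f : A → V) : ∑ z ∈ sol (n + 1) y, f z = ∑ i : tor A (n + 1), f (w + i) := by
  symm
  refine Finset.sum_bij' (fun i _ => w + (i : A))
    (fun z hz => ⟨z - w, by rw [mem_tor, smul_sub, mem_sol.mp hz, hw, sub_self]⟩) ?_ ?_ ?_ ?_ ?_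
  · intro i _
    rw [mem_sol, smul_add, mem_tor.mp i.2, hw, add_zero]
  · intro z hz; exact Finset.mem_univ _
  · intro i _; apply Subtype.ext; show w + (i : A) - w = i; abel
  · intro z hz; show w + (z - w) = z; abel
  · intro i _; rfl

lemma sum_sol0 {V : Type*} [AddCommMonoid V] (n : ℕ) (f : A → V) :
    ∑ z ∈ sol (n + 1) (0 : A), f z = ∑ i : tor A (n + 1), f i := by
  rw [sum_sol (w := (0 : A)) (smul_zero _) f]
  simp only [zero_add]

lemma card_sol (hT : TD A) (n : ℕ) (y : A) : (sol (n + 1) y).card = (n + 1) ^ 2 := by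
  obtain ⟨w, hw⟩ := hT.div n y
  rw [Finset.card_eq_sum_ones, sum_sol hw, Finset.sum_const, Finset.card_univ, hT.card n]
  simp

/-- translation of a fibre -/
lemma sum_sol_shift {V : Type*} [AddCommMonoid V] {n : ℕ} {y y' s : A}
    (h : y' = y + (n + 1) • s) (f : A → V) :
    ∑ z ∈ sol (n + 1) y', f z = ∑ z ∈ sol (n + 1) y, f (z + s) := by
  symm
  refine Finset.sum_bij' (fun z _ => z + s) (fun z _ => z - s) ?_ ?_ ?_ ?_ ?_
  · intro z hz; rw [mem_sol, smul_add, mem_sol.mp hz, h]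
  · intro z hz; rw [mem_sol, smul_sub, mem_sol.mp hz, h]; abel
  · intro z _; abel
  · intro z _; abel
  · intro z _; rfl

lemma sum_sol0_shift {V : Type*} [AddCommMonoid V] {n : ℕ} {s : A} (hs : (n + 1) • s = 0)
    (f : A → V) : ∑ z ∈ sol (n + 1) (0 : A), f z = ∑ z ∈ sol (n + 1) (0 : A), f (z + s) :=
  sum_sol_shift (by rw [hs, add_zero]) f

lemma sum_sol_neg {V : Type*} [AddCommMonoid V] {n : ℕ} {y y' : A} (h : y' = -y) (f : A → V) :
    ∑ z ∈ sol (n + 1) y', f z = ∑ z ∈ sol (n + 1) y, f (-z) := by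
  symm
  refine Finset.sum_bij' (fun z _ => -z) (fun z _ => -z) ?_ ?_ ?_ ?_ ?_
  · intro z hz; rw [mem_sol, smul_neg, mem_sol.mp hz, h]
  · intro z hz; rw [mem_sol, smul_neg, mem_sol.mp hz, h]; abel
  · intro z _; abel
  · intro z _; abel
  · intro z _; rfl

variable {t : A → A → B}

/-- (H1) -/
theorem Z_shift (n : ℕ) {s : A} (hs : (n + 2) • s = 0) (b c : A) :
    Z t n b (c + s) = Z t n (b - s) c := by
  have hk : -(b - s) = -b + (n + 1) • (-s) := by
    have : (n + 1) • s = -s := by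
      have h := hs
      rw [show n + 2 = (n + 1) + 1 from rfl, succ_nsmul] at h
      exact eq_neg_of_add_eq_zero_left h
    rw [smul_neg, this]; abel
  have hs' : (n + 2) • (-s) = 0 := by rw [smul_neg, hs, neg_zero]
  unfold Z
  have e1 : ∑ a ∈ sol (n + 2) (0 : A), t (a - b) (b - (c + s)) =
      ∑ a ∈ sol (n + 2) (0 : A), t (a - (b - s)) (b - s - c) := by
    rw [sum_sol0_shift (n := n + 1) hs (fun a => t (a - b) (b - (c + s)))]
    refine Finset.sum_congr rfl fun a _ => ?_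
    congr 1 <;> abel
  have e2 : ∑ w ∈ sol (n + 1) (-b), t (b - w) (w - (c + s)) =
      ∑ w ∈ sol (n + 1) (-(b - s)), t (b - s - w) (w - c) := by
    rw [sum_sol_shift hk (fun w => t (b - s - w) (w - c))]
    refine Finset.sum_congr rfl fun a _ => ?_
    congr 1 <;> abel
  have e3 : ∑ w ∈ sol (n + 1) (-b), ∑ a ∈ sol (n + 2) (0 : A), t (w - a) (a - (c + s)) =
      ∑ w ∈ sol (n + 1) (-(b - s)), ∑ a ∈ sol (n + 2) (0 : A), t (w - a) (a - c) := by
    rw [sum_sol_shift hk (fun w => ∑ a ∈ sol (n + 2) (0 : A), t (w - a) (a - c))]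
    refine Finset.sum_congr rfl fun w _ => ?_
    rw [sum_sol0_shift (n := n + 1) hs' (fun a => t (w + -s - a) (a - c))]
    refine Finset.sum_congr rfl fun a _ => ?_
    congr 1 <;> abel
  have e4 : t ((n + 2) • (c + s)) (b - (c + s)) = t ((n + 2) • c) (b - s - c) := by
    rw [smul_add, hs, add_zero]; congr 1; abel
  rw [e1, e2, e3, e4]

/-- (H2) -/
theorem Z_neg (ht : IsT t) (n : ℕ) (b c : A) : Z t n (-b) (-c) = Z t n b c := by
  unfold Z
  have e1 : ∑ a ∈ sol (n + 2) (0 : A), t (a - -b) (-b - -c) =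
      ∑ a ∈ sol (n + 2) (0 : A), t (a - b) (b - c) := by
    rw [sum_sol_neg (n := n + 1) (neg_zero.symm) (fun a => t (a - -b) (-b - -c))]
    refine Finset.sum_congr rfl fun a _ => ?_
    rw [← ht.even]; congr 1 <;> abel
  have e2 : ∑ w ∈ sol (n + 1) (- -b), t (-b - w) (w - -c) =
      ∑ w ∈ sol (n + 1) (-b), t (b - w) (w - c) := by
    rw [sum_sol_neg (y := -b) (y' := - -b) rfl (fun w => t (-b - w) (w - -c))]
    refine Finset.sum_congr rfl fun a _ => ?_
    rw [← ht.even]; congr 1 <;> abel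
  have e3 : ∑ w ∈ sol (n + 1) (- -b), ∑ a ∈ sol (n + 2) (0 : A), t (w - a) (a - -c) =
      ∑ w ∈ sol (n + 1) (-b), ∑ a ∈ sol (n + 2) (0 : A), t (w - a) (a - c) := by
    rw [sum_sol_neg (y := -b) (y' := - -b) rfl
      (fun w => ∑ a ∈ sol (n + 2) (0 : A), t (w - a) (a - -c))]
    refine Finset.sum_congr rfl fun w _ => ?_
    rw [sum_sol_neg (n := n + 1) (neg_zero.symm) (fun a => t (-w - a) (a - -c))]
    refine Finset.sum_congr rfl fun a _ => ?_
    rw [← ht.even]; congr 1 <;> abel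
  have e4 : t ((n + 2) • (-c)) (-b - -c) = t ((n + 2) • c) (b - c) := by
    rw [← ht.even]; congr 1
    · rw [smul_neg, neg_neg]
    · abel
  rw [e1, e2, e3, e4]

lemma cyc (ht : IsT t) {x y x' y' : A} (h1 : x' = y) (h2 : y' = -x - y) : t x y = t x' y' := by
  rw [h1, h2]; exact (ht.rot x y).symm

/-- (H3) -/
theorem Z_sum (ht : IsT t) (n : ℕ)
    (hd : ∀ a b : A, ∑ i : tor A (n + 2), ∑ j : tor A (n + 2), t (a + i) (b + j) =
      t ((n + 2) • a) ((n + 2) • b)) (b c : A) :
    ∑ s ∈ sol (n + 2) (0 : A), Z t n (b + s) c = Z t n (b + (n + 1) • c) (b - c) := by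
  have hk : ∀ s : A, s ∈ sol (n + 2) (0 : A) → (n + 1) • s = -s := by
    intro s hs
    have h := mem_sol2.mp hs
    rw [show n + 2 = (n + 1) + 1 from rfl, succ_nsmul] at h
    exact eq_neg_of_add_eq_zero_left h
  have hl : ∀ x : A, (n + 2) • x = (n + 1) • x + x := fun x => succ_nsmul x (n + 1)
  have hd' : ∀ a b : A, ∑ i ∈ sol (n + 2) (0 : A), ∑ j ∈ sol (n + 2) (0 : A),
      t (a + i) (b + j) = t ((n + 2) • a) ((n + 2) • b) := by
    intro a b
    rw [← hd, sum_sol0 (n + 1)]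
    refine Finset.sum_congr rfl fun i _ => ?_
    rw [sum_sol0 (n + 1)]
  unfold Z
  rw [Finset.sum_add_distrib, Finset.sum_add_distrib, Finset.sum_add_distrib]
  have e1 : ∑ s ∈ sol (n + 2) (0 : A), ∑ a ∈ sol (n + 2) (0 : A), t (a - (b + s)) (b + s - c) =
      t ((n + 2) • (b - c)) (b + (n + 1) • c - (b - c)) := by
    have : ∀ s ∈ sol (n + 2) (0 : A), ∑ a ∈ sol (n + 2) (0 : A), t (a - (b + s)) (b + s - c) =
        ∑ a ∈ sol (n + 2) (0 : A), t (-b + a) (b - c + s) := by
      intro s hs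
      rw [sum_sol0_shift (n := n + 1) (mem_sol2.mp hs) (fun a => t (a - (b + s)) (b + s - c))]
      refine Finset.sum_congr rfl fun a _ => ?_
      congr 1 <;> abel
    rw [Finset.sum_congr rfl this, Finset.sum_comm, hd' (-b) (b - c)]
    refine cyc ht rfl ?_
    rw [hl, hl]; simp only [smul_neg, smul_sub]; abel
  have e2 : ∑ s ∈ sol (n + 2) (0 : A), ∑ w ∈ sol (n + 1) (-(b + s)), t (b + s - w) (w - c) =
      ∑ w ∈ sol (n + 1) (-(b + (n + 1) • c)), ∑ a ∈ sol (n + 2) (0 : A),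
        t (w - a) (a - (b - c)) := by
    have : ∀ s ∈ sol (n + 2) (0 : A),
        ∑ w ∈ sol (n + 1) (-(b + s)), t (b + s - w) (w - c) =
          ∑ w ∈ sol (n + 1) (-b), t (b - w) (w + s - c) := by
      intro s hs
      rw [sum_sol_shift (y := -b) (s := s) (by rw [hk s hs]; abel)
        (fun w => t (b + s - w) (w - c))]
      refine Finset.sum_congr rfl fun a _ => ?_
      congr 1; abel
    rw [Finset.sum_congr rfl this, Finset.sum_comm,
      sum_sol_shift (y := -b) (s := -c) (by rw [smul_neg]; abel)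
        (fun w => ∑ a ∈ sol (n + 2) (0 : A), t (w - a) (a - (b - c)))]
    refine Finset.sum_congr rfl fun w _ => ?_
    rw [sum_sol_neg (n := n + 1) (neg_zero.symm) (fun s => t (b - w) (w + s - c))]
    refine Finset.sum_congr rfl fun a _ => ?_
    refine (cyc ht (by abel) (by abel) : t (w + -c - a) (a - (b - c)) =
      t (a - (b - c)) (b - w)).trans ?_ |>.symm
    exact cyc ht rfl (by abel)
  have e3 : ∑ s ∈ sol (n + 2) (0 : A), ∑ w ∈ sol (n + 1) (-(b + s)),
      ∑ a ∈ sol (n + 2) (0 : A), t (w - a) (a - c) =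
      ∑ w ∈ sol (n + 1) (-(b + (n + 1) • c)), t (b + (n + 1) • c - w) (w - (b - c)) := by
    have : ∀ s ∈ sol (n + 2) (0 : A),
        ∑ w ∈ sol (n + 1) (-(b + s)), ∑ a ∈ sol (n + 2) (0 : A), t (w - a) (a - c) =
          ∑ w ∈ sol (n + 1) (-b), ∑ a ∈ sol (n + 2) (0 : A), t (w + s - a) (a - c) := by
      intro s hs
      rw [sum_sol_shift (y := -b) (s := s) (by rw [hk s hs]; abel)
        (fun w => ∑ a ∈ sol (n + 2) (0 : A), t (w - a) (a - c))]
    rw [Finset.sum_congr rfl this, Finset.sum_comm,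
      sum_sol_shift (y := -b) (s := -c) (by rw [smul_neg]; abel)
        (fun w => t (b + (n + 1) • c - w) (w - (b - c)))]
    refine Finset.sum_congr rfl fun w hw => ?_
    have hw' : (n + 1) • w = -b := mem_sol.mp hw
    have h1 : ∑ s ∈ sol (n + 2) (0 : A), ∑ a ∈ sol (n + 2) (0 : A), t (w + s - a) (a - c) =
        ∑ s ∈ sol (n + 2) (0 : A), ∑ a ∈ sol (n + 2) (0 : A), t (w + s) (-c + a) := by
      rw [Finset.sum_comm, Finset.sum_comm (s := sol (n + 2) (0 : A)) (t := sol (n + 2) (0 : A))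
        (f := fun s a => t (w + s) (-c + a))]
      refine Finset.sum_congr rfl fun a ha => ?_
      rw [sum_sol0_shift (n := n + 1) (mem_sol2.mp ha) (fun s => t (w + s - a) (a - c))]
      refine Finset.sum_congr rfl fun s _ => ?_
      congr 1 <;> abel
    rw [h1, hd' w (-c)]
    refine (cyc ht ?_ ?_ : t (b + (n + 1) • c - (w + -c)) (w + -c - (b - c)) =
      t ((n + 2) • w) ((n + 2) • -c)).symm
    · rw [hl, hw']; abel
    · rw [smul_neg, hl]; abel
  have e4 : ∑ s ∈ sol (n + 2) (0 : A), t ((n + 2) • c) (b + s - c) =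
      ∑ a ∈ sol (n + 2) (0 : A), t (a - (b + (n + 1) • c)) (b + (n + 1) • c - (b - c)) := by
    rw [sum_sol_neg (n := n + 1) (neg_zero.symm) (fun s => t ((n + 2) • c) (b + s - c))]
    refine Finset.sum_congr rfl fun a _ => ?_
    refine (cyc ht ?_ ?_ : t (a - (b + (n + 1) • c)) (b + (n + 1) • c - (b - c)) =
      t ((n + 2) • c) (b + -a - c)).symm
    · rw [hl]; abel
    · abel
  rw [e1, e2, e3, e4]
  abel

end Pool.Agent.K4Z
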