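import Pool.Agent.Lib_helper7.K4Z.Core
import Pool.Agent.Lib_helper76.K4M.ZY3
import Pool.Agent.Lib_helper76.K4M.ERd
import Pool.Agent.Lib_helper24.K4DH.ZSol
import Pool.Agent.Lib_helper24.K4DH.Full
import Pool.Agent.Lib_helper86.K4H.H2

/-!
Project K4M: the relation `Z_l` for all `l ≥ 2`, the distribution relations and the Hecke relations
for the classes in `H(F)`, without decomposable elements.
-/

set_option autoImplicit false
set_option linter.unusedSectionVars false

namespace Pool.Agent.K4Z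

open Finset Pool.Agent.K4ParP Pool.Agent.K4D2

section abs

variable {A B : Type*} [AddCommGroup A] [AddCommGroup B] [Module ℚ B]
  [∀ n : ℕ, Fintype (tor A (n + 1))]

/-- the relation `Z_l`, `l = n + 2`, off the exceptional pairs -/
theorem Z_zero (hT : TD A) {t : A → A → B} (ht : IsT t)
    (td : ∀ (n : ℕ) (a b : A), ∑ i : tor A (n + 1), ∑ j : tor A (n + 1), t (a + i) (b + j) =
      t ((n + 1) • a) ((n + 1) • b))
    (hER : ∀ (n : ℕ) (e : A), e + e = 0 → (n = 0 → e ≠ 0) → K4M.ERab t n e) :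
    ∀ (n : ℕ) (b c : A), ¬ ((n + 2) • c = 0 ∧ b = c) → Z t n b c = 0 := by
  intro n
  induction n using Nat.strong_induction_on with
  | _ n ih =>
    refine core (z := Z t n) hT (fun s hs b c => Z_shift n hs b c) (fun b c => Z_neg ht n b c)
      (fun b c => Z_sum ht n (td (n + 1)) b c) ?_
    intro σ hσ b1 b2 c c0 o1 o2 o3 o4
    refine K4M.er_Z hT ht n (td n) (hER n) ?_ (σ := σ) ⟨hσ.1, ?_⟩ o1 o2 o3 o4
    · intro m hm b c
      exact ih m (by omega) b c
    · intro h0 h1
      apply hσ.2 0 (by omega)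
      rw [h1, smul_zero]

end abs

section T

open K4M

variable {F : Type*} [Field F] [CharZero F] [IsAlgClosed F] [DecidableEq F]
  {W : WeierstrassCurve.Affine F}

/-- the four cusp relation for all torsion points -/
theorem Z_T (hW : W.Δ ≠ 0) {t : TP W → TP W → K4M.B2 F} (ht : K4ParP.IsT t)
    (hC : ∀ P a b c d : TP W, K4D2.fT (K4D2.h2_closed hW) P a b c d = K4ParP.CR t P a b c d)
    (n : ℕ) (b c : TP W) (h : ¬ ((n + 2) • c = 0 ∧ b = c)) : Z t n b c = 0 :=
  Z_zero (td_closed hW) ht (K4Hon.td_H hW ht hC) (fun j _ he hj => K4M.er_T hW hC j he hj) n b c h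

theorem ZR1_T (hW : W.Δ ≠ 0) {t : TP W → TP W → K4M.B2 F} (ht : K4ParP.IsT t)
    (hC : ∀ P a b c d : TP W, K4D2.fT (K4D2.h2_closed hW) P a b c d = K4ParP.CR t P a b c d)
    (n : ℕ) : K4DH.ZR1 (A := TP W) t (n + 1 + 1) (n + 1) :=
  K4DH.ZR1_of_sol ht rfl (sol (n + 2) 0) (fun _ => mem_sol2) (sol (n + 1)) (fun _ _ => mem_sol)
    (fun b c hc => Z_T hW ht hC n b c (fun h => hc h.1))

end T

end Pool.Agent.K4Z

namespace Pool.Agent.MK4

open scoped TensorProduct

variable {F : Type*} [Field F] [CharZero F] [IsAlgClosed F] [DecidableEq F]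
  {W : WeierstrassCurve.Affine F}

/-- the distribution relations in one variable, in `H(F)`, for every level -/
theorem dist2At_all (hW : W.Δ ≠ 0) {t : To W → To W → B2 F} (ht : Tri cr t) :
    ∀ k, 0 < k → Dist2At k (fun a b : To W => hk (t a b) (K4M.gT b - K4M.gT a)) :=
  dist2At_T hW ht fun n => K4Z.ZR1_T hW ((tri_iff_T hW).mp ht).1 ((tri_iff_T hW).mp ht).2 n

/-- the Hecke relations in `H(F)`, for every prime -/
theorem heckeAt_all (hW : W.Δ ≠ 0) {t : To W → To W → B2 F} (ht : Tri cr t) :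
    ∀ l, l.Prime → HeckeAt l (fun a b : To W => hk (t a b) (K4M.gT b - K4M.gT a)) :=
  heckeAt_T hW ht fun n => K4Z.ZR1_T hW ((tri_iff_T hW).mp ht).1 ((tri_iff_T hW).mp ht).2 n

end Pool.Agent.MK4
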