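import Pool.Agent.Lib_helper7.K4Z.Def

/-!
Project K4M, honest `Z_l` for all `l = n + 2`: a function `z` on pairs with the translation
property (H1), the parity (H2), the averaging identity (H3) and the even reciprocity (ER)
vanishes off the pairs `(c, c)`, `l c = 0`.
-/

set_option autoImplicit false
set_option linter.unusedSectionVars false

namespace Pool.Agent.K4Z

open Finset Pool.Agent.K4ParP Pool.Agent.K4D2

variable {A B : Type*} [AddCommGroup A] [AddCommGroup B] [Module ℚ B]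

/-- the shifts for which the even reciprocity is available -/
def Allowed (n : ℕ) (σ : A) : Prop := (n + 2) • σ = 0 ∧ ∀ m : ℕ, n = 2 * m → (m + 1) • σ ≠ 0

/-- non-degeneracy of the pair `c, b` -/
def OK (n : ℕ) (σ c b : A) : Prop := ¬ (((n + 2) • c = 0 ∨ n • c = σ) ∧ (b = c ∨ b = -c - σ))

/-- even reciprocity -/
def ER (z : A → A → B) (n : ℕ) : Prop := ∀ σ : A, Allowed n σ → ∀ b1 b2 c c0 : A,
  OK n σ c b1 → OK n σ c b2 → OK n σ c0 b1 → OK n σ c0 b2 →
  (z b1 c + z (-b1 - σ) c) - (z b2 c + z (-b2 - σ) c) =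
    (z b1 c0 + z (-b1 - σ) c0) - (z b2 c0 + z (-b2 - σ) c0)

lemma nz {m : ℕ} (hm : m ≠ 0) {x : B} (h : m • x = 0) : x = 0 := by
  rw [← Nat.cast_smul_eq_nsmul ℚ m x] at h
  rcases smul_eq_zero.mp h with h | h
  · exact absurd (by exact_mod_cast h) hm
  · exact h

lemma nz_eq {m : ℕ} (hm : m ≠ 0) {x y : B} (h : m • x = m • y) : x = y := by
  apply sub_eq_zero.mp
  apply nz hm
  rw [smul_sub, h, sub_self]

lemma cop_zero {N q : ℕ} (h : Nat.Coprime N q) {y : A} (h1 : N • y = 0) (h2 : q • y = 0) :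
    y = 0 := by
  have h3 := addOrderOf_dvd_of_nsmul_eq_zero h1
  have h4 := addOrderOf_dvd_of_nsmul_eq_zero h2
  have h5 : addOrderOf y = 1 := Nat.eq_one_of_dvd_coprimes h h3 h4
  exact AddMonoid.addOrderOf_eq_one_iff.mp h5

lemma mod_smul {N a b : ℕ} (h : a ≡ b [MOD N]) {y : A} (h1 : N • y = 0) : a • y = b • y := by
  have key : ∀ a : ℕ, a • y = (a % N) • y := by
    intro a
    conv_lhs => rw [← Nat.div_add_mod a N, add_smul, mul_comm, mul_smul, h1, smul_zero, zero_add]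
  rw [key a, key b, h]

variable [∀ n : ℕ, Fintype (tor A (n + 1))]

lemma tors2 (hT : TD A) (a b : A) : ∃ N : ℕ, N ≠ 0 ∧ N • a = 0 ∧ N • b = 0 := by
  obtain ⟨n, hn⟩ := hT.tors a
  obtain ⟨m, hm⟩ := hT.tors b
  refine ⟨(n + 1) * (m + 1), by positivity, ?_, ?_⟩
  · rw [mul_comm, mul_smul, hn, smul_zero]
  · rw [mul_smul, hm, smul_zero]

/-- elements of large prime order -/
lemma exists_gen (hT : TD A) (N : ℕ) : ∃ q : ℕ, q.Prime ∧ N < q ∧ ∃ c : A, c ≠ 0 ∧ q • c = 0 := by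
  obtain ⟨q, hq, hp⟩ := Nat.exists_infinite_primes (N + 1)
  obtain ⟨r, rfl⟩ : ∃ r, q = r + 1 := ⟨q - 1, by have := hp.two_le; omega⟩
  refine ⟨r + 1, hp, hq, ?_⟩
  have hc : 1 < Fintype.card (tor A (r + 1)) := by
    rw [hT.card r]
    have := hp.two_le
    nlinarith
  obtain ⟨x, y, hxy⟩ := Fintype.one_lt_card_iff.mp hc
  by_cases hx : (x : A) = 0
  · refine ⟨y, ?_, mem_tor.mp y.2⟩
    intro hy
    exact hxy (Subtype.ext (hx.trans hy.symm))
  · exact ⟨x, hx, mem_tor.mp x.2⟩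

/-- two allowed shifts with given difference, avoiding a given value -/
lemma exists_shift (hT : TD A) (n : ℕ) {δ : A} (hδ : (n + 2) • δ = 0) (c : A) :
    ∃ σ : A, Allowed n σ ∧ Allowed n (σ + δ) ∧ (n • c ≠ σ) ∧ (n • c ≠ σ + δ) := by
  classical
  have hcard : (sol (n + 2) (0 : A)).card = (n + 2) ^ 2 := card_sol hT (n + 1) 0
  rcases Nat.even_or_odd' n with ⟨m, hm | hm⟩
  · -- even `n`
    set S : Finset A := sol (m + 1) (0 : A) with hS
    have hSc : S.card = (m + 1) ^ 2 := card_sol hT m 0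
    set S' : Finset A := S.image (fun x => x - δ) with hS'
    have hSc' : S'.card ≤ (m + 1) ^ 2 := by rw [← hSc]; exact Finset.card_image_le
    set E : Finset A := if m = 0 then ∅ else {n • c, n • c - δ} with hE
    have hEc : (S ∪ S' ∪ E).card < (n + 2) ^ 2 := by
      have h1 : (S ∪ S' ∪ E).card ≤ S.card + S'.card + E.card :=
        (Finset.card_union_le _ _).trans (Nat.add_le_add_right (Finset.card_union_le _ _) _)
      rcases Nat.eq_zero_or_pos m with h0 | h0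
      · have : E.card = 0 := by rw [hE, if_pos h0]; rfl
        rw [hSc, this] at h1
        subst h0
        rw [hm]
        simp only [mul_zero] at h1 hSc' ⊢
        omega
      · have : E.card ≤ 2 := by rw [hE, if_neg h0.ne']; exact Finset.card_le_two
        rw [hSc] at h1
        rw [hm]
        nlinarith
    obtain ⟨σ, hσ, hσ'⟩ := Finset.exists_mem_notMem_of_card_lt_card (hEc.trans_eq hcard.symm)
    have hl : (n + 2) • σ = 0 := mem_sol2.mp hσ
    simp only [Finset.mem_union, not_or] at hσ'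
    obtain ⟨⟨a1, a2⟩, a3⟩ := hσ'
    have b1 : (m + 1) • σ ≠ 0 := fun h => a1 (mem_sol.mpr h)
    have b2 : (m + 1) • (σ + δ) ≠ 0 := fun h => a2 (by
      rw [hS', Finset.mem_image]
      exact ⟨σ + δ, mem_sol.mpr h, by abel⟩)
    have al1 : Allowed n σ := ⟨hl, fun m' hm' => by
      have : m' = m := by omega
      rw [this]; exact b1⟩
    have al2 : Allowed n (σ + δ) := ⟨by rw [smul_add, hl, hδ, add_zero], fun m' hm' => by
      have : m' = m := by omega
      rw [this]; exact b2⟩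
    refine ⟨σ, al1, al2, ?_, ?_⟩
    · intro h
      by_cases h0 : m = 0
      · subst h0
        rw [mul_zero] at hm
        subst hm
        rw [zero_smul] at h
        exact b1 (by rw [← h, smul_zero])
      · apply a3
        rw [hE, if_neg h0, h]
        exact Finset.mem_insert_self _ _
    · intro h
      by_cases h0 : m = 0
      · subst h0
        rw [mul_zero] at hm
        subst hm
        rw [zero_smul] at h
        exact b2 (by rw [← h, smul_zero])
      · apply a3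
        rw [hE, if_neg h0, h, Finset.mem_insert, Finset.mem_singleton]
        right; abel
  · -- odd `n`
    have hEc : ({n • c, n • c - δ} : Finset A).card < (sol (n + 2) (0 : A)).card := by
      rw [hcard]
      have : ({n • c, n • c - δ} : Finset A).card ≤ 2 := Finset.card_le_two
      nlinarith
    obtain ⟨σ, hσ, hσ'⟩ := Finset.exists_mem_notMem_of_card_lt_card hEc
    have hl : (n + 2) • σ = 0 := mem_sol2.mp hσ
    rw [Finset.mem_insert, Finset.mem_singleton, not_or] at hσ'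
    refine ⟨σ, ⟨hl, fun m' hm' => by omega⟩,
      ⟨by rw [smul_add, hl, hδ, add_zero], fun m' hm' => by omega⟩,
      fun h => hσ'.1 h.symm, fun h => hσ'.2 ?_⟩
    rw [h]; abel

section core

variable {n : ℕ} {z : A → A → B}

/-- Step A, first half -/
lemma stepA1 (hT : TD A) (hE : ER z n) {δ : A} (hδ : (n + 2) • δ = 0) {c c0 : A}
    (hc : (n + 2) • c ≠ 0) (hc0 : (n + 2) • c0 ≠ 0)
    (hg : ∀ σ : A, Allowed n σ → n • c0 ≠ σ) (x1 x2 : A) :
    (z (x1 + δ) c - z x1 c) - (z (x2 + δ) c - z x2 c) =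
      (z (x1 + δ) c0 - z x1 c0) - (z (x2 + δ) c0 - z x2 c0) := by
  obtain ⟨σ, s1, s2, n1, n2⟩ := exists_shift hT n hδ c
  have ok : ∀ (d τ b : A), (n + 2) • d ≠ 0 → n • d ≠ τ → OK n τ d b := by
    intro d τ b h1 h2 h3
    rcases h3.1 with h | h
    · exact h1 h
    · exact h2 h
  have e1 := hE σ s1 (-x1 - (σ + δ)) (-x2 - (σ + δ)) c c0 (ok _ _ _ hc n1) (ok _ _ _ hc n1)
    (ok _ _ _ hc0 (hg _ s1)) (ok _ _ _ hc0 (hg _ s1))
  have e2 := hE (σ + δ) s2 (-x1 - (σ + δ)) (-x2 - (σ + δ)) c c0 (ok _ _ _ hc n2)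
    (ok _ _ _ hc n2) (ok _ _ _ hc0 (hg _ s2)) (ok _ _ _ hc0 (hg _ s2))
  rw [show -(-x1 - (σ + δ)) - σ = x1 + δ by abel,
    show -(-x2 - (σ + δ)) - σ = x2 + δ by abel] at e1
  rw [show -(-x1 - (σ + δ)) - (σ + δ) = x1 by abel,
    show -(-x2 - (σ + δ)) - (σ + δ) = x2 by abel] at e2
  have e3 : ((z (-x1 - (σ + δ)) c + z (x1 + δ) c) - (z (-x2 - (σ + δ)) c + z (x2 + δ) c)) -
      ((z (-x1 - (σ + δ)) c + z x1 c) - (z (-x2 - (σ + δ)) c + z x2 c)) =
      ((z (-x1 - (σ + δ)) c0 + z (x1 + δ) c0) - (z (-x2 - (σ + δ)) c0 + z (x2 + δ) c0)) -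
      ((z (-x1 - (σ + δ)) c0 + z x1 c0) - (z (-x2 - (σ + δ)) c0 + z x2 c0)) := by
    rw [e1, e2]
  have f1 : (z (x1 + δ) c - z x1 c) - (z (x2 + δ) c - z x2 c) =
      ((z (-x1 - (σ + δ)) c + z (x1 + δ) c) - (z (-x2 - (σ + δ)) c + z (x2 + δ) c)) -
      ((z (-x1 - (σ + δ)) c + z x1 c) - (z (-x2 - (σ + δ)) c + z x2 c)) := by abel
  rw [f1, e3]
  abel

/-- a generic point -/
lemma gen_point (hT : TD A) (n N : ℕ) : ∃ c0 : A, (n + 2) • c0 ≠ 0 ∧
    (∀ σ : A, Allowed n σ → n • c0 ≠ σ) ∧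
    (∀ x : A, N • x = 0 → N ≠ 0 → ∀ j : ℕ, (n + 2) ^ j • (x - c0) ≠ 0) ∧
    (∀ j : ℕ, (n + 2) ^ j • c0 ≠ 0) := by
  obtain ⟨q, hq, hN, c0, hc0, hqc⟩ := exists_gen hT (N + n + 2)
  have cl : Nat.Coprime (n + 2) q := by
    rw [Nat.coprime_comm, Nat.Prime.coprime_iff_not_dvd hq]
    intro h
    have := Nat.le_of_dvd (by omega) h
    omega
  have hj : ∀ j : ℕ, (n + 2) ^ j • c0 ≠ 0 := by
    intro j h
    exact hc0 (cop_zero (Nat.Coprime.pow_left j cl) h hqc)
  refine ⟨c0, ?_, ?_, ?_, hj⟩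
  · intro h
    exact hc0 (cop_zero cl h hqc)
  · intro σ hσ h
    have h1 : (n + 2) • (n • c0) = 0 := by rw [h]; exact hσ.1
    have h2 : q • (n • c0) = 0 := by rw [smul_comm, hqc, smul_zero]
    have h3 : n • c0 = 0 := cop_zero cl h1 h2
    rcases Nat.eq_zero_or_pos n with h0 | h0
    · subst h0
      apply hσ.2 0 rfl
      rw [← h, zero_smul, smul_zero]
    · have cn : Nat.Coprime n q := by
        rw [Nat.coprime_comm, Nat.Prime.coprime_iff_not_dvd hq]
        intro h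
        have := Nat.le_of_dvd h0 h
        omega
      exact hc0 (cop_zero cn h3 hqc)
  · intro x hx hN0 j h
    have cN : Nat.Coprime N q := by
      rw [Nat.coprime_comm, Nat.Prime.coprime_iff_not_dvd hq]
      intro h
      have := Nat.le_of_dvd (Nat.pos_of_ne_zero hN0) h
      omega
    have h1 : (n + 2) ^ j • x = (n + 2) ^ j • c0 := by
      rw [smul_sub] at h
      exact sub_eq_zero.mp h
    have h2 : N • ((n + 2) ^ j • c0) = 0 := by rw [← h1, smul_comm, hx, smul_zero]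
    have h3 : q • ((n + 2) ^ j • c0) = 0 := by rw [smul_comm, hqc, smul_zero]
    exact hj j (cop_zero cN h2 h3)

/-- Step A -/
lemma stepA (hT : TD A) (H1 : ∀ s : A, (n + 2) • s = 0 → ∀ b c, z b (c + s) = z (b - s) c)
    (hE : ER z n) {δ : A} (hδ : (n + 2) • δ = 0) {c : A} (hc : (n + 2) • c ≠ 0) (x : A) :
    z (x + δ) c = z x c := by
  obtain ⟨c0, g1, g2, -, -⟩ := gen_point hT n 0
  -- periodicity of `P x c = z (x + δ) c - z x c`
  have per : ∀ (s : A), (n + 2) • s = 0 → ∀ x : A,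
      z (x - s + δ) c - z (x - s) c = z (x + δ) c - z x c := by
    intro s hs x
    set K : B := (z (x - s + δ) c0 - z (x - s) c0) - (z (x + δ) c0 - z x c0) with hK
    have h1 : ∀ c' : A, (n + 2) • c' ≠ 0 →
        (z (x + δ) (c' + s) - z x (c' + s)) - (z (x + δ) c' - z x c') = K := by
      intro c' hc'
      rw [H1 s hs, H1 s hs, show x + δ - s = x - s + δ by abel]
      exact stepA1 hT hE hδ hc' g1 g2 (x - s) x
    have h2 : ∀ j : ℕ, (z (x + δ) (c + j • s) - z x (c + j • s)) - (z (x + δ) c - z x c) =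
        j • K := by
      intro j
      induction j with
      | zero => simp
      | succ j ih =>
        have h3 := h1 (c + j • s) (by
          rw [smul_add, smul_comm, hs, smul_zero, add_zero]; exact hc)
        rw [add_assoc, ← succ_nsmul] at h3
        rw [succ_nsmul K, ← ih, ← h3]
        abel
    have h4 := h2 (n + 2)
    rw [hs, add_zero, sub_self] at h4
    have h5 : K = 0 := nz (by omega) h4.symm
    have h6 := stepA1 hT hE hδ hc g1 g2 (x - s) x
    rw [← hK, h5] at h6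
    exact sub_eq_zero.mp h6
  have per' : ∀ j : ℕ, z (x + (j + 1) • δ) c - z (x + j • δ) c = z (x + δ) c - z x c := by
    intro j
    have h := per (-(j • δ)) (by rw [smul_neg, smul_comm, hδ, smul_zero, neg_zero]) x
    rw [sub_neg_eq_add] at h
    rw [← h, succ_nsmul, add_assoc]
  have tel : ∀ j : ℕ, z (x + j • δ) c - z x c = j • (z (x + δ) c - z x c) := by
    intro j
    induction j with
    | zero => simp
    | succ j ih =>
      rw [succ_nsmul (z (x + δ) c - z x c), ← ih, ← per' j]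
      abel
  have h := tel (n + 2)
  rw [hδ, add_zero, sub_self] at h
  exact sub_eq_zero.mp (nz (by omega) h.symm)

/-- Step B -/
lemma stepB (hT : TD A) (H1 : ∀ s : A, (n + 2) • s = 0 → ∀ b c, z b (c + s) = z (b - s) c)
    (H3 : ∀ b c, ∑ s ∈ sol (n + 2) (0 : A), z (b + s) c = z (b + (n + 1) • c) (b - c))
    (hE : ER z n) {c : A} (hc : (n + 2) • c ≠ 0) (D : A) :
    (n + 2) ^ 2 • z (c + D) c = z (D + (n + 2) • c) D := by
  have h := H3 (c + D) c
  have h1 : ∑ s ∈ sol (n + 2) (0 : A), z (c + D + s) c =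
      ∑ s ∈ sol (n + 2) (0 : A), z (c + D) c :=
    Finset.sum_congr rfl fun s hs => stepA hT H1 hE (mem_sol2.mp hs) hc _
  rw [h1, Finset.sum_const, card_sol hT (n + 1) 0] at h
  rw [show (n + 2) ^ 2 = (n + 1 + 1) ^ 2 from rfl, h]
  congr 1
  · rw [succ_nsmul c (n + 1)]; abel
  · abel

/-- Step C, one step -/
lemma stepC1 (hT : TD A) (H1 : ∀ s : A, (n + 2) • s = 0 → ∀ b c, z b (c + s) = z (b - s) c)
    (H3 : ∀ b c, ∑ s ∈ sol (n + 2) (0 : A), z (b + s) c = z (b + (n + 1) • c) (b - c))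
    (hE : ER z n) {c D : A} (hc : (n + 2) • c ≠ 0) (hD : (n + 2) • D ≠ 0) :
    (n + 2) ^ 4 • z (c + D) c = z ((n + 2) • c + (n + 2) • D) ((n + 2) • c) := by
  rw [show (n + 2) ^ 4 = (n + 2) ^ 2 * (n + 2) ^ 2 by ring, mul_smul,
    stepB hT H1 H3 hE hc D, stepB hT H1 H3 hE hD ((n + 2) • c)]

/-- Step C -/
lemma stepC (hT : TD A) (H1 : ∀ s : A, (n + 2) • s = 0 → ∀ b c, z b (c + s) = z (b - s) c)
    (H3 : ∀ b c, ∑ s ∈ sol (n + 2) (0 : A), z (b + s) c = z (b + (n + 1) • c) (b - c))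
    (hE : ER z n) {c D : A} (hc : ∀ j : ℕ, (n + 2) ^ j • c ≠ 0)
    (hD : ∀ j : ℕ, (n + 2) ^ j • D ≠ 0) : z (c + D) c = 0 := by
  have it : ∀ j : ℕ, (n + 2) ^ (4 * j) • z (c + D) c =
      z ((n + 2) ^ j • c + (n + 2) ^ j • D) ((n + 2) ^ j • c) := by
    intro j
    induction j with
    | zero => simp
    | succ j ih =>
      have hc' : (n + 2) • ((n + 2) ^ j • c) ≠ 0 := by
        rw [← mul_smul, ← pow_succ']; exact hc (j + 1)
      have hD' : (n + 2) • ((n + 2) ^ j • D) ≠ 0 := by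
        rw [← mul_smul, ← pow_succ']; exact hD (j + 1)
      have h := stepC1 hT H1 H3 hE hc' hD'
      rw [← ih, ← mul_smul, ← mul_smul, ← mul_smul, ← pow_succ'] at h
      rw [← h, ← pow_add, show 4 * (j + 1) = 4 + 4 * j by ring]
  obtain ⟨N, hN, h1, h2⟩ := tors2 hT c D
  have : NeZero N := ⟨hN⟩
  obtain ⟨i, j, hij, hf⟩ := Finite.exists_ne_map_eq_of_infinite
    (fun j : ℕ => (((n + 2) ^ j : ℕ) : ZMod N))
  replace hf := (ZMod.natCast_eq_natCast_iff _ _ _).mp hf
  have e1 := it i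
  have e2 := it j
  rw [mod_smul hf h1, mod_smul hf h2, ← e2] at e1
  have hne : (n + 2) ^ (4 * i) ≠ (n + 2) ^ (4 * j) := by
    intro h
    have := Nat.pow_right_injective (by omega : 2 ≤ n + 2) h
    omega
  have e3 : (((n + 2) ^ (4 * i) : ℕ) : ℚ) • z (c + D) c =
      (((n + 2) ^ (4 * j) : ℕ) : ℚ) • z (c + D) c := by
    rw [Nat.cast_smul_eq_nsmul, Nat.cast_smul_eq_nsmul]; exact e1
  rw [← sub_eq_zero, ← sub_smul] at e3
  rcases smul_eq_zero.mp e3 with h | h
  · exfalso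
    apply hne
    have := sub_eq_zero.mp h
    exact_mod_cast this
  · exact h

/-- Step E, the relation at `c = 0` -/
lemma stepE1 (hT : TD A) (H1 : ∀ s : A, (n + 2) • s = 0 → ∀ b c, z b (c + s) = z (b - s) c)
    (H2 : ∀ b c, z (-b) (-c) = z b c)
    (H3 : ∀ b c, ∑ s ∈ sol (n + 2) (0 : A), z (b + s) c = z (b + (n + 1) • c) (b - c))
    (hE : ER z n) {σ : A} (hσ : Allowed n σ) {b1 b2 : A} (h1 : b1 ≠ 0) (h1' : b1 + σ ≠ 0)
    (h2 : b2 ≠ 0) (h2' : b2 + σ ≠ 0) :
    z b1 0 + z (b1 + σ) 0 = z b2 0 + z (b2 + σ) 0 := by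
  obtain ⟨N1, hN1, a1, a2⟩ := tors2 hT b1 b2
  set N : ℕ := N1 * (n + 2) with hN
  have hN0 : N ≠ 0 := Nat.mul_ne_zero hN1 (by omega)
  have t1 : N • b1 = 0 := by rw [hN, mul_comm, mul_smul, a1, smul_zero]
  have t2 : N • b2 = 0 := by rw [hN, mul_comm, mul_smul, a2, smul_zero]
  have ts : N • σ = 0 := by rw [hN, mul_smul, hσ.1, smul_zero]
  obtain ⟨c0, g1, g2, g3, g4⟩ := gen_point hT n N
  have hz : ∀ x : A, N • x = 0 → z x c0 = 0 := by
    intro x hx
    have := stepC hT H1 H3 hE (c := c0) (D := x - c0) g4 (g3 x hx hN0)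
    rwa [show c0 + (x - c0) = x by abel] at this
  have ev : ∀ x : A, z (-x) 0 = z x 0 := by
    intro x
    have := H2 x 0
    rwa [neg_zero] at this
  have ok0 : ∀ b : A, b ≠ 0 → b + σ ≠ 0 → OK n σ 0 b := by
    intro b hb hb' h
    rcases h.2 with h | h
    · exact hb h
    · apply hb'; rw [h]; abel
  have okc : ∀ b : A, OK n σ c0 b := by
    intro b h
    rcases h.1 with h | h
    · exact g1 h
    · exact g2 σ hσ h
  have key := hE σ hσ b1 b2 0 c0 (ok0 _ h1 h1') (ok0 _ h2 h2') (okc _) (okc _)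
  rw [hz b1 t1, hz b2 t2, hz (-b1 - σ) (by rw [smul_sub, smul_neg, t1, ts]; abel),
    hz (-b2 - σ) (by rw [smul_sub, smul_neg, t2, ts]; abel),
    show -b1 - σ = -(b1 + σ) by abel, show -b2 - σ = -(b2 + σ) by abel, ev, ev] at key
  simp only [add_zero, sub_zero] at key
  exact sub_eq_zero.mp key

/-- three allowed shifts with sum `0` adapted to a given point -/
lemma exists_triple (hT : TD A) (m : ℕ) (b : A) :
    ∃ σ1 σ2 : A, Allowed (2 * m) σ1 ∧ Allowed (2 * m) σ2 ∧ Allowed (2 * m) (-σ1 - σ2) ∧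
      b + σ1 ≠ 0 ∧ b + σ1 + σ2 ≠ 0 := by
  classical
  -- two elements of order `2` spanning the `2`-torsion
  have hc2 : (sol (0 + 2) (0 : A)).card = (1 + 1) ^ 2 := card_sol hT 1 0
  obtain ⟨u, hu, hu'⟩ := Finset.exists_mem_notMem_of_card_lt_card
    (s := ({0} : Finset A)) (t := sol (0 + 2) (0 : A)) (by rw [hc2]; simp)
  obtain ⟨v, hv, hv'⟩ := Finset.exists_mem_notMem_of_card_lt_card
    (s := ({0, u} : Finset A)) (t := sol (0 + 2) (0 : A)) (by
      rw [hc2]
      have := Finset.card_le_two (a := (0 : A)) (b := u)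
      omega)
  rw [Finset.mem_singleton] at hu'
  rw [Finset.mem_insert, Finset.mem_singleton, not_or] at hv'
  have u2 : 2 • u = 0 := mem_sol2.mp hu
  have v2 : 2 • v = 0 := mem_sol2.mp hv
  obtain ⟨x, hx⟩ := hT.div m u
  obtain ⟨y, hy⟩ := hT.div m v
  have al : ∀ w : A, 2 • ((m + 1) • w) = 0 → (m + 1) • w ≠ 0 → Allowed (2 * m) w := by
    intro w h1 h2
    refine ⟨?_, fun m' hm' => ?_⟩
    · rw [show 2 * m + 2 = 2 * (m + 1) by ring, mul_smul]; exact h1
    · have : m' = m := by omega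
      rw [this]; exact h2
  have n2 : ∀ w : A, 2 • w = 0 → -w = w := by
    intro w hw
    rw [two_nsmul] at hw
    exact neg_eq_of_add_eq_zero_left hw
  have uv : u + v ≠ 0 := by
    intro h
    apply hv'.2
    rw [eq_neg_of_add_eq_zero_right h, n2 u u2]
  have ax : Allowed (2 * m) x := al x (by rw [hx]; exact u2) (by rw [hx]; exact hu')
  have ay : Allowed (2 * m) y := al y (by rw [hy]; exact v2) (by rw [hy]; exact hv'.1)
  have exy : (m + 1) • (-x - y) = u + v := by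
    rw [smul_sub, smul_neg, hx, hy, n2 u u2, sub_eq_add_neg, n2 v v2]
  have axy : Allowed (2 * m) (-x - y) := al _ (by rw [exy, smul_add, u2, v2, add_zero])
    (by rw [exy]; exact uv)
  by_cases c1 : b + x ≠ 0 ∧ b + x + y ≠ 0
  · exact ⟨x, y, ax, ay, axy, c1.1, c1.2⟩
  by_cases c2 : b + y ≠ 0 ∧ b + y + (-x - y) ≠ 0
  · refine ⟨y, -x - y, ay, axy, ?_, c2.1, c2.2⟩
    rw [show -y - (-x - y) = x by abel]; exact ax
  by_cases c3 : b + (-x - y) ≠ 0 ∧ b + (-x - y) + x ≠ 0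
  · refine ⟨-x - y, x, axy, ax, ?_, c3.1, c3.2⟩
    rw [show -(-x - y) - x = y by abel]; exact ay
  exfalso
  -- multiply everything by `m + 1`
  set b' : A := (m + 1) • b with hb'
  have k1 : b' + u = 0 ∨ b' + u + v = 0 := by
    by_contra hcon
    rw [not_or] at hcon
    apply c1
    refine ⟨fun h => hcon.1 ?_, fun h => hcon.2 ?_⟩
    · rw [hb', ← hx, ← smul_add, h, smul_zero]
    · rw [hb', ← hx, ← hy, ← smul_add, ← smul_add, h, smul_zero]
  have k2 : b' + v = 0 ∨ b' + u = 0 := by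
    by_contra hcon
    rw [not_or] at hcon
    apply c2
    refine ⟨fun h => hcon.1 ?_, fun h => hcon.2 ?_⟩
    · rw [hb', ← hy, ← smul_add, h, smul_zero]
    · rw [show b + y + (-x - y) = b - x by abel] at h
      rw [hb', sub_eq_zero.mp h, hx, ← two_nsmul, u2]
  have k3 : b' + u + v = 0 ∨ b' + v = 0 := by
    by_contra hcon
    rw [not_or] at hcon
    apply c3
    refine ⟨fun h => hcon.1 ?_, fun h => hcon.2 ?_⟩
    · have h1 : (m + 1) • (b + (-x - y)) = 0 := by rw [h, smul_zero]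
      rw [smul_add, exy, ← add_assoc] at h1
      exact h1
    · rw [show b + (-x - y) + x = b - y by abel] at h
      rw [hb', sub_eq_zero.mp h, hy, ← two_nsmul, v2]
  rcases k1 with h | h
  · rcases k3 with h' | h'
    · rw [h, zero_add] at h'; exact hv'.1 h'
    · have : u = v := by
        have h2 : b' + u = b' + v := h.trans h'.symm
        exact add_left_cancel h2
      exact hv'.2 this.symm
  · rcases k2 with h' | h'
    · rw [add_right_comm, h', zero_add] at h; exact hu' h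
    · rw [h', zero_add] at h; exact hv'.1 h

/-- Step E -/
lemma stepE2 (hT : TD A) (H1 : ∀ s : A, (n + 2) • s = 0 → ∀ b c, z b (c + s) = z (b - s) c)
    (H2 : ∀ b c, z (-b) (-c) = z b c)
    (H3 : ∀ b c, ∑ s ∈ sol (n + 2) (0 : A), z (b + s) c = z (b + (n + 1) • c) (b - c))
    (hE : ER z n) {b b' : A} (hb : b ≠ 0) (hb' : (n + 2) • b' ≠ 0) :
    z b 0 = z b' 0 := by
  have hb0 : b' ≠ 0 := by
    intro h; apply hb'; rw [h, smul_zero]
  rcases Nat.even_or_odd' n with ⟨m, hm | hm⟩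
  · subst hm
    obtain ⟨σ1, σ2, s1, s2, s3, d1, d2⟩ := exists_triple hT m b
    have av : ∀ τ : A, (2 * m + 2) • τ = 0 → b' + τ ≠ 0 := by
      intro τ hτ h
      apply hb'
      rw [eq_neg_of_add_eq_zero_left h, smul_neg, hτ, neg_zero]
    have e1 := stepE1 hT H1 H2 H3 hE s1 hb d1 hb0 (av _ s1.1)
    have e2 := stepE1 hT H1 H2 H3 hE s2 d1 d2 (av _ s1.1) (by
      rw [add_assoc]; exact av _ (by rw [smul_add, s1.1, s2.1, add_zero]))
    have e3 := stepE1 hT H1 H2 H3 hE s3 d2 (by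
      rw [show b + σ1 + σ2 + (-σ1 - σ2) = b by abel]; exact hb)
      (by rw [add_assoc]; exact av _ (by rw [smul_add, s1.1, s2.1, add_zero]) :
        b' + σ1 + σ2 ≠ 0) (by
      rw [show b' + σ1 + σ2 + (-σ1 - σ2) = b' by abel]; exact hb0)
    rw [show b + σ1 + σ2 + (-σ1 - σ2) = b by abel,
      show b' + σ1 + σ2 + (-σ1 - σ2) = b' by abel] at e3
    apply nz_eq (m := 2) two_ne_zero
    rw [two_nsmul, two_nsmul]
    have e4 : (z b 0 + z (b + σ1) 0) - (z (b + σ1) 0 + z (b + σ1 + σ2) 0) +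
        (z (b + σ1 + σ2) 0 + z b 0) = (z b' 0 + z (b' + σ1) 0) -
        (z (b' + σ1) 0 + z (b' + σ1 + σ2) 0) + (z (b' + σ1 + σ2) 0 + z b' 0) := by
      rw [e1, e2, e3]
    have f : z b 0 + z b 0 = (z b 0 + z (b + σ1) 0) - (z (b + σ1) 0 + z (b + σ1 + σ2) 0) +
        (z (b + σ1 + σ2) 0 + z b 0) := by abel
    rw [f, e4]
    abel
  · have s0 : Allowed n (0 : A) := ⟨smul_zero _, fun m' hm' => by omega⟩
    have e1 := stepE1 hT H1 H2 H3 hE s0 hb (by rw [add_zero]; exact hb) hb0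
      (by rw [add_zero]; exact hb0)
    rw [add_zero, add_zero] at e1
    apply nz_eq (m := 2) two_ne_zero
    rw [two_nsmul, two_nsmul]
    exact e1

/-- Step E, conclusion -/
lemma stepE (hT : TD A) (H1 : ∀ s : A, (n + 2) • s = 0 → ∀ b c, z b (c + s) = z (b - s) c)
    (H2 : ∀ b c, z (-b) (-c) = z b c)
    (H3 : ∀ b c, ∑ s ∈ sol (n + 2) (0 : A), z (b + s) c = z (b + (n + 1) • c) (b - c))
    (hE : ER z n) {b : A} (hb : b ≠ 0) : z b 0 = 0 := by
  obtain ⟨c0, g1, -, -, g4⟩ := gen_point hT n 0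
  have hc2 : (n + 2) • ((n + 2) • c0) ≠ 0 := by
    have := g4 2
    rwa [pow_two, mul_smul] at this
  have h0 : ∀ b : A, b ≠ 0 → z b 0 = z ((n + 2) • c0) 0 := fun b hb =>
    stepE2 hT H1 H2 H3 hE hb hc2
  have h1 := stepB hT H1 H3 hE g1 0
  rw [add_zero, zero_add] at h1
  have h2 := H3 c0 0
  rw [smul_zero, add_zero, sub_zero] at h2
  have h3 : ∑ s ∈ sol (n + 2) (0 : A), z (c0 + s) 0 =
      ∑ s ∈ sol (n + 2) (0 : A), z ((n + 2) • c0) 0 := by
    refine Finset.sum_congr rfl fun s hs => h0 _ ?_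
    intro h
    apply g1
    rw [eq_neg_of_add_eq_zero_left h, smul_neg, mem_sol2.mp hs, neg_zero]
  rw [h3, Finset.sum_const, card_sol hT (n + 1) 0] at h2
  rw [← h2, ← mul_smul] at h1
  rw [h0 b hb]
  obtain ⟨r, hr⟩ : ∃ r, (n + 2) ^ 2 * (n + 1 + 1) ^ 2 = r + 1 + 1 := by
    refine ⟨(n + 2) ^ 2 * (n + 1 + 1) ^ 2 - 2, ?_⟩
    have h5 : 2 ≤ (n + 2) ^ 2 * (n + 1 + 1) ^ 2 := by
      have h6 : 2 ≤ (n + 2) ^ 2 := by
        have := Nat.pow_le_pow_left (show 2 ≤ n + 2 by omega) 2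
        omega
      have h7 : 1 ≤ (n + 1 + 1) ^ 2 := Nat.one_le_pow _ _ (by omega)
      calc 2 = 2 * 1 := rfl
        _ ≤ _ := Nat.mul_le_mul h6 h7
    omega
  rw [hr, succ_nsmul] at h1
  exact nz (m := r + 1) (by omega) (add_eq_right.mp h1)

/-- Step F -/
theorem core (hT : TD A) (H1 : ∀ s : A, (n + 2) • s = 0 → ∀ b c, z b (c + s) = z (b - s) c)
    (H2 : ∀ b c, z (-b) (-c) = z b c)
    (H3 : ∀ b c, ∑ s ∈ sol (n + 2) (0 : A), z (b + s) c = z (b + (n + 1) • c) (b - c))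
    (hE : ER z n) (b c : A) (h : ¬ ((n + 2) • c = 0 ∧ b = c)) : z b c = 0 := by
  have base : ∀ c D : A, (n + 2) • c = 0 → D ≠ 0 → z (c + D) c = 0 := by
    intro c D hc hD
    have h1 := H1 c hc (c + D) 0
    rw [zero_add] at h1
    rw [h1, show c + D - c = D by abel]
    exact stepE hT H1 H2 H3 hE hD
  have nonex : ∀ j : ℕ, ∀ c D : A, ((n + 2) ^ j • c = 0 ∨ (n + 2) ^ j • D = 0) →
      ¬ ((n + 2) • c = 0 ∧ D = 0) → z (c + D) c = 0 := by
    intro j
    induction j with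
    | zero =>
      intro c D h1 h2
      rw [pow_zero, one_smul, one_smul] at h1
      by_cases hc : (n + 2) • c = 0
      · exact base c D hc fun hD => h2 ⟨hc, hD⟩
      · rcases h1 with h1 | h1
        · exfalso; apply hc; rw [h1, smul_zero]
        · apply nz (m := (n + 2) ^ 2) (by positivity)
          rw [stepB hT H1 H3 hE hc D, h1]
          exact base 0 _ (smul_zero _) hc
    | succ j ih =>
      intro c D h1 h2
      by_cases hc : (n + 2) • c = 0
      · exact base c D hc fun hD => h2 ⟨hc, hD⟩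
      · by_cases hD : (n + 2) • D = 0
        · apply nz (m := (n + 2) ^ 2) (by positivity)
          rw [stepB hT H1 H3 hE hc D]
          exact base D _ hD hc
        · apply nz (m := (n + 2) ^ 4) (by positivity)
          rw [stepC1 hT H1 H3 hE hc hD]
          apply ih
          · rwa [← mul_smul, ← mul_smul, ← pow_succ]
          · intro h3; exact hD h3.2
  have main : ∀ c D : A, ¬ ((n + 2) • c = 0 ∧ D = 0) → z (c + D) c = 0 := by
    intro c D h2
    by_cases hj : ∃ j : ℕ, (n + 2) ^ j • c = 0 ∨ (n + 2) ^ j • D = 0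
    · obtain ⟨j, hj⟩ := hj
      exact nonex j c D hj h2
    · push Not at hj
      exact stepC hT H1 H3 hE (fun j => (hj j).1) (fun j => (hj j).2)
  have := main c (b - c) (fun h' => h ⟨h'.1, sub_eq_zero.mp h'.2⟩)
  rwa [show c + (b - c) = b by abel] at this

end core

end Pool.Agent.K4Z
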